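import Pool.Agent.MP_3b5bbf_co.Defs

/-! Checkerboards whose cells are single uncreased squares of the sheet. -/

namespace Pool.Agent.MP_3b5bbf_co.S

open Set

/-- the closed cell (a, b) of the `k × k` grid on `[0, c]²` -/
def cell (k : ℕ) (c : ℝ) (a b : ℕ) : Set ℂ :=
  {z | a * (c / k) ≤ z.re ∧ z.re ≤ (a + 1) * (c / k) ∧ b * (c / k) ≤ z.im ∧ z.im ≤ (b + 1) * (c / k)}

/-- the open cell (a, b) of the `k × k` grid on `[0, c]²` -/
def openCell (k : ℕ) (c : ℝ) (a b : ℕ) : Set ℂ :=
  {z | a * (c / k) < z.re ∧ z.re < (a + 1) * (c / k) ∧ b * (c / k) < z.im ∧ z.im < (b + 1) * (c / k)}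

/-- The plane isometry `g` carries the closed cell (a, b) to a square piece of the sheet that
the folding map lays back onto the cell without a crease, white side up iff `a + b` is even. -/
def Sheet (F : FlatFolding) (k : ℕ) (c : ℝ) (a b : ℕ) (g : ℂ → ℂ) : Prop :=
  Isometry g ∧ (∀ z ∈ cell k c a b, g z ∈ square 1 ∧ F.f (g z) = z) ∧
    (0 < cross (g 0) (g 1) (g Complex.I) ↔ Even (a + b))

/-- every cell is covered, at some depth, by an uncreased square of the right colour -/
def Layered (F : FlatFolding) (k : ℕ) (c : ℝ) : Prop :=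
  ∀ a < k, ∀ b < k, ∃ g, Sheet F k c a b g

/-- every cell is covered by an uncreased square of the right colour, and this square is all
that is seen from above inside the cell -/
def Seamless (F : FlatFolding) (k : ℕ) (c : ℝ) : Prop :=
  ∀ a < k, ∀ b < k, ∃ g, Sheet F k c a b g ∧
    ∀ i, F.IsTop i → ∀ w ∈ tri (F.v i), F.f w ∈ openCell k c a b → w = g (F.f w)

end Pool.Agent.MP_3b5bbf_co.S
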